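import Pool.Agent.Lib.helper15.Thales2

set_option autoImplicit false

open Set Real

namespace Pool.Agent.Results.MP_7a5b4a_gt.Classical

/-- A projective-metric plane on an open convex set `M` of the affine plane: `d` is a metric on `M`,
continuous for the standard topology, and each chord of `M` is a geodesic line of `d`
(an isometric copy of the real line). -/
structure AffinePlane (M : Set (ℝ × ℝ)) (d : ℝ × ℝ → ℝ × ℝ → ℝ) : Prop where
  isOpen : IsOpen M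
  convex : Convex ℝ M
  nonempty : M.Nonempty
  eq_zero : ∀ x ∈ M, ∀ y ∈ M, d x y = 0 ↔ x = y
  symm : ∀ x ∈ M, ∀ y ∈ M, d x y = d y x
  triangle : ∀ x ∈ M, ∀ y ∈ M, ∀ z ∈ M, d x z ≤ d x y + d y z
  continuous : ContinuousOn (fun p : (ℝ × ℝ) × (ℝ × ℝ) => d p.1 p.2) (M ×ˢ M)
  geodesic : ∀ x ∈ M, ∀ y ∈ M, x ≠ y → ∃ γ : ℝ → ℝ × ℝ,
    range γ = M ∩ (affineSpan ℝ {x, y} : Set (ℝ × ℝ)) ∧ ∀ s t, d (γ s) (γ t) = |s - t|

/-- The circle identity with size function `σ` for every circle of `(M, d)`. -/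
def CircleIdentity (σ : ℝ → ℝ) (M : Set (ℝ × ℝ)) (d : ℝ × ℝ → ℝ × ℝ → ℝ) : Prop :=
  ∀ C ∈ M, ∀ r : ℝ, 0 < r → ∀ A ∈ M, ∀ B ∈ M, ∀ P ∈ M, Sbtw ℝ A C B →
    d C A = r → d C B = r → d C P = r → P ∉ affineSpan ℝ {A, B} →
    σ (d A P / 2) ^ 2 + σ (d B P / 2) ^ 2 = σ r ^ 2

abbrev V := EuclideanSpace ℝ (Fin 3)

/-- A projective-metric plane of elliptic type, read on the unit sphere modulo sign; the projective
line with normal `n` is a closed geodesic of length `π`. -/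
structure EllipticPlane (d : V → V → ℝ) : Prop where
  eq_zero : ∀ x y : V, ‖x‖ = 1 → ‖y‖ = 1 → (d x y = 0 ↔ x = y ∨ x = -y)
  symm : ∀ x y : V, ‖x‖ = 1 → ‖y‖ = 1 → d x y = d y x
  neg : ∀ x y : V, ‖x‖ = 1 → ‖y‖ = 1 → d (-x) y = d x y
  triangle : ∀ x y z : V, ‖x‖ = 1 → ‖y‖ = 1 → ‖z‖ = 1 → d x z ≤ d x y + d y z
  continuous : ContinuousOn (fun p : V × V => d p.1 p.2) ({x | ‖x‖ = 1} ×ˢ {x | ‖x‖ = 1})
  geodesic : ∀ n : V, n ≠ 0 → ∃ γ : ℝ → V, (∀ t, ‖γ t‖ = 1 ∧ inner ℝ n (γ t) = 0) ∧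
    (∀ x : V, ‖x‖ = 1 → inner ℝ n x = 0 → ∃ t, γ t = x ∨ γ t = -x) ∧
    ∀ s t : ℝ, d (γ s) (γ t) = ⨅ k : ℤ, |s - t - k * π|

/-- The circle identity with `σ = sin` for every circle of radius `r < π / 2`. -/
def EllipticIdentity (d : V → V → ℝ) : Prop :=
  ∀ n C A B P : V, ∀ r : ℝ, n ≠ 0 → ‖C‖ = 1 → ‖A‖ = 1 → ‖B‖ = 1 → ‖P‖ = 1 → 0 < r → r < π / 2 →
    inner ℝ n C = 0 → inner ℝ n A = 0 → inner ℝ n B = 0 → A ≠ B → A ≠ -B →
    d C A = r → d C B = r → d C P = r → inner ℝ n P ≠ 0 →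
    sin (d A P / 2) ^ 2 + sin (d B P / 2) ^ 2 = sin r ^ 2

open Pool.Agent.Lib.helper15.Thales

lemma AffinePlane.pm {M : Set (ℝ × ℝ)} {d : ℝ × ℝ → ℝ × ℝ → ℝ} (h : AffinePlane M d) : PM M d :=
  ⟨h.1, h.2, h.3, h.4, h.5, h.6, h.7, h.8⟩

lemma CircleIdentity.line {σ : ℝ → ℝ} {M : Set (ℝ × ℝ)} {d : ℝ × ℝ → ℝ × ℝ → ℝ}
    (H : CircleIdentity σ M d) (hM : PM M d) {γ : ℝ → ℝ × ℝ} (h : IsL M d γ) {q : ℝ × ℝ}
    (hq : q ∈ M) (hn : q ∉ range γ) (t : ℝ) :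
    σ (d q (γ (t - d q (γ t))) / 2) ^ 2 + σ (d q (γ (t + d q (γ t))) / 2) ^ 2 =
      σ (d q (γ t)) ^ 2 := by
  have p := (hM.lp h hq hn).pos t
  rw [hM.symm _ hq _ (h.mem (t - _)), hM.symm _ hq _ (h.mem (t + _))]
  refine H _ (h.mem t) _ p _ (h.mem _) _ (h.mem _) q hq (hM.sbtw h (by linarith) (by linarith))
    (by simp [h.1, p.le]) (by simp [h.1, p.le]) (hM.symm _ (h.mem t) _ hq) fun e => hn ?_
  rw [h.range_eq (s := t - d q (γ t)) (t := t + d q (γ t)) (by linarith)]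
  exact ⟨hq, e⟩

lemma elliptic (d : V → V → ℝ) (hd : EllipticPlane d) : ¬ EllipticIdentity d := fun H => by
  have bb : ∀ u : ℝ, BddBelow (range fun k : ℤ => |u - k * π|) := fun u =>
    ⟨0, by rintro _ ⟨k, rfl⟩; exact abs_nonneg _⟩
  have pi := pi_pos
  have sg : ∀ {x x' y : V}, ‖x‖ = 1 → ‖y‖ = 1 → x' = x ∨ x' = -x → d x y = d x' y :=
    fun hx hy e => by rcases e with rfl | rfl; exacts [rfl, (hd.neg _ _ hx hy).symm]
  have diam : ∀ x y : V, ‖x‖ = 1 → ‖y‖ = 1 → 0 ≤ d x y ∧ d x y ≤ π / 2 := fun x y hx hy => by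
    obtain ⟨n, hn, n0⟩ := (Submodule.ne_bot_iff _).1 (LinearMap.ker_ne_bot_of_finrank_lt
      (f := (innerₗ V x).prod (innerₗ V y)) (by simp))
    simp only [LinearMap.mem_ker, LinearMap.prod_apply, Prod.ext_iff] at hn
    obtain ⟨γ, g1, g2, g3⟩ := hd.geodesic n n0
    obtain ⟨s, hs⟩ := g2 x hx (by rw [real_inner_comm]; exact hn.1)
    obtain ⟨t, ht⟩ := g2 y hy (by rw [real_inner_comm]; exact hn.2)
    rw [sg hx hy hs, hd.symm _ _ (g1 s).1 hy, sg hy (g1 s).1 ht, g3]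
    refine ⟨le_ciInf fun _ => abs_nonneg _, (ciInf_le (bb _) (round ((t - s) / π))).trans ?_⟩
    rw [show t - s - round ((t - s) / π) * π = ((t - s) / π - round ((t - s) / π)) * π by
      field_simp, abs_mul, abs_of_pos pi]
    nlinarith [abs_sub_round ((t - s) / π)]
  have low : ∀ j : ℤ, ¬ 3 ∣ j → π / 3 ≤ ⨅ k : ℤ, |j * (π / 3) - k * π| := fun j hj =>
    le_ciInf fun k => by
      rw [show j * (π / 3) - k * π = ((j - 3 * k : ℤ) : ℝ) * (π / 3) by push_cast; ring, abs_mul,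
        abs_of_pos (by positivity : 0 < π / 3), ← Int.cast_abs]
      have : (1 : ℝ) ≤ ((|j - 3 * k| : ℤ) : ℝ) := by
        exact_mod_cast Int.one_le_abs (by omega)
      nlinarith
  let C : V := !₂[0, 0, 1]
  have hC : ‖C‖ = 1 := by simp [C, EuclideanSpace.norm_eq, Fin.sum_univ_three]
  let n : ℕ → V := fun k => !₂[k, -1, 0]
  have n0 : ∀ k, n k ≠ 0 := fun k e => by simpa [n] using congrArg (· 1) e
  have ni : ∀ k (x : V), inner ℝ (n k) x = k * x 0 - x 1 := fun k x => by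
    simp [n, PiLp.inner_apply, Fin.sum_univ_three]; ring
  choose γ g1 g2 g3 using fun k => hd.geodesic (n k) (n0 k)
  choose t ht using fun k => g2 k C hC (by simp [ni, C])
  have dC : ∀ k (j : ℤ), j = 1 ∨ j = -1 → d C (γ k (t k - j * (π / 3))) = π / 3 := fun k j hj => by
    rw [sg hC (g1 k _).1 (ht k), g3, sub_sub_cancel]
    refine le_antisymm ((ciInf_le (bb _) 0).trans ?_) (low j (by omega))
    rcases hj with rfl | rfl <;> simp [abs_of_pos (show 0 < π / 3 by positivity)]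
  have far : ∀ k j, k ≠ j → 1 ≤ d (γ k (t k - (1 : ℤ) * (π / 3))) (γ j (t j - (1 : ℤ) * (π / 3))) := by
    intro k j kj
    have ab : d (γ k (t k - (1 : ℤ) * (π / 3))) (γ k (t k - (-1 : ℤ) * (π / 3))) ≠ 0 := by
      rw [g3, show t k - (1 : ℤ) * (π / 3) - (t k - (-1 : ℤ) * (π / 3)) = (-2 : ℤ) * (π / 3) by
        push_cast; ring]
      exact ((by positivity : 0 < π / 3).trans_le (low _ (by decide))).ne'
    rw [Ne, hd.eq_zero _ _ (g1 k _).1 (g1 k _).1, not_or] at ab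
    have := H (n k) C _ _ _ (π / 3) (n0 k) hC (g1 k _).1 (g1 k _).1 (g1 j _).1 (by positivity)
      (by linarith) (by simp [ni, C]) (g1 k _).2 (g1 k _).2 ab.1 ab.2 (dC k 1 (.inl rfl))
      (dC k (-1) (.inr rfl)) (dC j 1 (.inl rfl)) fun e => by
        have e1 := dC j 1 (.inl rfl)
        obtain ⟨e2, e3⟩ := g1 j (t j - (1 : ℤ) * (π / 3))
        set x := γ j (t j - (1 : ℤ) * (π / 3))
        rw [ni] at e e3
        have x0 : x 0 = 0 := (mul_eq_zero.1 (show ((k : ℝ) - j) * x 0 = 0 by linarith)).resolve_left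
          (sub_ne_zero.2 (by exact_mod_cast kj))
        have x1 : x 1 = 0 := by rw [x0] at e; linarith
        have x2 : x 2 ^ 2 = 1 := by
          simpa [EuclideanSpace.norm_eq, Fin.sum_univ_three, x0, x1] using e2
        rw [(hd.eq_zero _ _ hC e2).2 ((sq_eq_one_iff.1 x2).imp (fun h => ?_) fun h => ?_)]
          at e1
        · linarith
        all_goals ext i; fin_cases i <;> simp [C, x0, x1, h]
    obtain ⟨a1, -⟩ := diam _ _ (g1 k (t k - (1 : ℤ) * (π / 3))).1 (g1 j (t j - (1 : ℤ) * (π / 3))).1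
    obtain ⟨b1, b2⟩ := diam _ _ (g1 k (t k - (-1 : ℤ) * (π / 3))).1 (g1 j (t j - (1 : ℤ) * (π / 3))).1
    set x := d (γ k (t k - (1 : ℤ) * (π / 3))) (γ j (t j - (1 : ℤ) * (π / 3)))
    set y := d (γ k (t k - (-1 : ℤ) * (π / 3))) (γ j (t j - (1 : ℤ) * (π / 3)))
    have c1 := sin_sq_le_sq (x := x / 2)
    have c2 := cos_nonneg_of_mem_Icc (x := y) ⟨by linarith, b2⟩
    rw [sq_sin_pi_div_three, sin_sq_eq_half_sub (y / 2), mul_div_cancel₀ y two_ne_zero] at this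
    nlinarith
  obtain ⟨a, ha, φ, hφ, l⟩ := (isCompact_sphere (0 : V) 1).tendsto_subseq
    (x := fun k => γ k (t k - (1 : ℤ) * (π / 3))) fun k => by simpa using (g1 k _).1
  have ha : ‖a‖ = 1 := by simpa using ha
  have := ge_of_tendsto' ((hd.continuous (a, a) ⟨ha, ha⟩).tendsto.comp
    (tendsto_nhdsWithin_iff.2 ⟨l.prodMk_nhds (l.comp (Filter.tendsto_add_atTop_nat 1)),
      .of_forall fun i => ⟨(g1 _ _).1, (g1 _ _).1⟩⟩)) fun i =>
      far (φ i) (φ (i + 1)) (hφ (by omega)).ne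
  rw [(hd.eq_zero a a ha ha).2 (.inl rfl)] at this
  linarith

theorem result :
    (∀ (M : Set (ℝ × ℝ)) (d : ℝ × ℝ → ℝ × ℝ → ℝ), AffinePlane M d → CircleIdentity id M d →
      ∃ f : ℝ × ℝ → ℝ × ℝ, BijOn f M univ ∧ ∀ x ∈ M, ∀ y ∈ M,
        d x y = √(((f x).1 - (f y).1) ^ 2 + ((f x).2 - (f y).2) ^ 2)) ∧
    (∀ (M : Set (ℝ × ℝ)) (d : ℝ × ℝ → ℝ × ℝ → ℝ), AffinePlane M d → CircleIdentity sinh M d →
      ∃ f : ℝ × ℝ → ℝ × ℝ, BijOn f M {p | p.1 ^ 2 + p.2 ^ 2 < 1} ∧ ∀ x ∈ M, ∀ y ∈ M,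
        cosh (d x y) = (1 - ((f x).1 * (f y).1 + (f x).2 * (f y).2)) /
          √((1 - ((f x).1 ^ 2 + (f x).2 ^ 2)) * (1 - ((f y).1 ^ 2 + (f y).2 ^ 2)))) ∧
    (∀ d : V → V → ℝ, EllipticPlane d → ¬ EllipticIdentity d) := by
  refine ⟨fun M d hM H => ?_, fun M d hM H => ?_, elliptic⟩
  · have hM := hM.pm
    obtain ⟨e1, e2, h1, h2⟩ := hM.euc fun γ h x hx => eu_ex hM h (fun γ h q hq hn t => by
      have := H.line hM h hq hn t
      simp only [id] at this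
      linear_combination 4 * this) hx
    refine ⟨fun x => (e1 x, e2 x), ⟨mapsTo_univ _ _, fun x hx y hy e => ?_, fun z _ => ?_⟩,
      fun x hx y hy => by rw [← h1 x hx y hy, sqrt_sq (hM.nonneg hx hy)]⟩
    · have := h1 x hx y hy
      simp only [Prod.ext_iff] at e
      rw [e.1, e.2] at this
      exact (hM.zero x hx y hy).1 (by simpa using this)
    · obtain ⟨x, hx, a, b⟩ := h2 z.1 z.2
      exact ⟨x, hx, Prod.ext a b⟩
  · have hM := hM.pm
    obtain ⟨e0, e1, e2, h1, h0, h2⟩ := hM.hyp fun γ h x hx => cs_ex hM h (fun γ h q hq hn t => by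
      have := H.line hM h hq hn t
      have c : ∀ u, cosh u = 2 * sinh (u / 2) ^ 2 + 1 := fun u => by
        conv_lhs => rw [show u = 2 * (u / 2) by ring, cosh_two_mul, cosh_sq]
        ring
      rw [c (d q (γ (t - _))), c (d q (γ (t + _))), cosh_sq]
      linear_combination 2 * this) hx
    have k : ∀ x ∈ M, 1 - ((e1 x / e0 x) ^ 2 + (e2 x / e0 x) ^ 2) = (e0 x)⁻¹ ^ 2 := fun x hx => by
      have := h1 x hx x hx
      have := (h0 x).ne'
      rw [(hM.zero x hx x hx).2 rfl, cosh_zero] at *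
      field_simp
      linarith
    have main : ∀ x ∈ M, ∀ y ∈ M, cosh (d x y) =
        (1 - (e1 x / e0 x * (e1 y / e0 y) + e2 x / e0 x * (e2 y / e0 y))) /
          √((1 - ((e1 x / e0 x) ^ 2 + (e2 x / e0 x) ^ 2)) *
            (1 - ((e1 y / e0 y) ^ 2 + (e2 y / e0 y) ^ 2))) := fun x hx y hy => by
      have := h0 x
      have := h0 y
      rw [k x hx, k y hy, ← mul_pow, sqrt_sq (by positivity), h1 x hx y hy]
      field_simp
      ring
    refine ⟨fun x => (e1 x / e0 x, e2 x / e0 x), ⟨fun x hx => ?_, fun x hx y hy e => ?_,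
      fun z hz => ?_⟩, main⟩
    · have := k x hx
      have := pow_pos (inv_pos.2 (h0 x)) 2
      simp only [mem_ofPred_eq]
      linarith
    · have a := main x hx y hy
      have b := main x hx x hx
      simp only [Prod.ext_iff] at e
      rw [← e.1, ← e.2, ← b, (hM.zero x hx x hx).2 rfl, cosh_zero] at a
      by_contra n
      exact (one_lt_cosh.2 fun e => n ((hM.zero x hx y hy).1 e)).ne' a
    · have p : 0 < 1 - (z.1 ^ 2 + z.2 ^ 2) := sub_pos.2 hz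
      have q := sqrt_pos.2 p
      obtain ⟨x, hx, a, b, c⟩ := h2 (√(1 - (z.1 ^ 2 + z.2 ^ 2)))⁻¹ (z.1 / √(1 - (z.1 ^ 2 + z.2 ^ 2)))
        (z.2 / √(1 - (z.1 ^ 2 + z.2 ^ 2))) (by positivity) (by
          rw [inv_pow, div_pow, div_pow, sq_sqrt p.le]; field_simp; ring)
      exact ⟨x, hx, Prod.ext (by simp only [a, b]; field_simp) (by simp only [a, c]; field_simp)⟩

end Pool.Agent.Results.MP_7a5b4a_gt.Classical
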